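import Pool.Agent.Lib.MP_606be1_nt.Crit

namespace Pool.Agent.Lib.MP_606be1_nt.Retired.Criterion

/-- Exact continued fraction criterion for the asymptotic formula. -/
theorem result (α β : ℝ) (hα : 1 < α) (hβ : 1 < β) :
    Asymptotics.IsEquivalent Filter.atTop
      (fun x : ℝ => (({p : ℕ × ℕ | |α ^ p.1 - β ^ p.2| ≤ x}.ncard : ℕ) : ℝ))
      (fun x : ℝ => Real.log x ^ 2 / (Real.log α * Real.log β)) ↔
    ((∀ x : ℝ, {j : ℕ | α ^ ((Real.log α / Real.log β).convergent j).den ≤
        x * (((Real.log α / Real.log β).convergent (j + 1)).den : ℝ)}.Finite) ∧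
      Asymptotics.IsLittleO Filter.atTop
        (fun x : ℝ => (({j : ℕ | α ^ ((Real.log α / Real.log β).convergent j).den ≤
          x * (((Real.log α / Real.log β).convergent (j + 1)).den : ℝ)}.ncard : ℕ) : ℝ))
        (fun x : ℝ => Real.log x ^ 2)) :=
  Pool.Agent.Lib.MP_606be1_nt.criterion hα hβ

end Pool.Agent.Lib.MP_606be1_nt.Retired.Criterion
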