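import Pool.Agent.Lib.MP_606be1_nt.CX.Impl

namespace Pool.Agent.Lib.MP_606be1_nt.Retired.Formula

/-- The number of solutions (in `ℕ∞`) is the number of convergents that are solutions plus a
natural number equal to the main term up to `O(log x)`. -/
theorem result (α β : ℝ) (hα : 1 < α) (hβ : 1 < β) :
    ∃ C : ℝ, ∀ᶠ x : ℝ in Filter.atTop, ∃ k : ℕ,
      {p : ℕ × ℕ | |α ^ p.1 - β ^ p.2| ≤ x}.encard =
        {j : ℕ | |α ^ ((Real.log α / Real.log β).convergent j).den -
          β ^ ((Real.log α / Real.log β).convergent j).num| ≤ x}.encard + k ∧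
      |(k : ℝ) - Real.log x ^ 2 / (Real.log α * Real.log β)| ≤ C * Real.log x :=
  Pool.Agent.Lib.MP_606be1_nt.FM.formulaE hα hβ

/-- the same statement, from the hand-in `ComplexFormula` -/
example : type_of% @result := @Pool.Agent.Lib.MP_606be1_nt.CX.realFormula

end Pool.Agent.Lib.MP_606be1_nt.Retired.Formula
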