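import Pool.Agent.Lib.MP_606be1_nt.SC.Impl

namespace Pool.Agent.Lib.MP_606be1_nt.Retired.SpectrumReal

/-- Every nondecreasing function occurs, up to `O(log x)` and a dilation, as the excess of the
number of solutions over the main term, for a base in any given interval. -/
theorem result (β u v : ℝ) (hβ : 1 < β) (hu : 1 ≤ u) (huv : u < v) (F : ℝ → ℕ)
    (hF : Monotone F) :
    ∃ α : ℝ, u < α ∧ α < v ∧ ∃ C : ℝ, 1 ≤ C ∧ ∀ᶠ x : ℝ in Filter.atTop, ∃ k : ℕ,
      {p : ℕ × ℕ | |α ^ p.1 - β ^ p.2| ≤ x}.encard = k ∧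
      (F (x / C) : ℝ) - C * Real.log x ≤ k - Real.log x ^ 2 / (Real.log α * Real.log β) ∧
      (k : ℝ) - Real.log x ^ 2 / (Real.log α * Real.log β) ≤ F (C * x) + C * Real.log x :=
  Pool.Agent.Lib.MP_606be1_nt.SP.spectrum hβ hu huv F hF

/-- the same statement, from the hand-in `Spectrum` -/
example : type_of% @result := @Pool.Agent.Lib.MP_606be1_nt.SC.realCase

end Pool.Agent.Lib.MP_606be1_nt.Retired.SpectrumReal
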