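import Pool.Agent.Lib.MP_606be1_nt.Tower

namespace Pool.Agent.Lib.MP_606be1_nt.Retired.TowerBound

open Pool.Agent.Lib.MP_606be1_nt

/-- An iterated logarithm type lower bound for the differences implies the asymptotic formula. -/
theorem result (α β : ℝ) (hα : 1 < α) (hβ : 1 < β)
    (H : ∀ C : ℝ, ∃ K : ℕ, ∀ k : ℕ, K ≤ k → ∀ n m : ℕ, tw k ≤ n →
      Real.exp (C * Real.sqrt (k : ℝ)) ≤ |α ^ n - β ^ m|) :
    Asymptotics.IsEquivalent Filter.atTop
      (fun x : ℝ => (({p : ℕ × ℕ | |α ^ p.1 - β ^ p.2| ≤ x}.ncard : ℕ) : ℝ))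
      (fun x : ℝ => Real.log x ^ 2 / (Real.log α * Real.log β)) :=
  tower hα hβ H

end Pool.Agent.Lib.MP_606be1_nt.Retired.TowerBound
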