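import Pool.Agent.Lib.MP_606be1_nt.Sharp

namespace Pool.Agent.Lib.MP_606be1_nt.Retired.TowerSharp

open Pool.Agent.Lib.MP_606be1_nt

/-- Densely many multiplicatively independent pairs with finite counts, differences at least
`exp (c * sqrt k)` beyond the tower of height `k`, and the wrong asymptotic. -/
theorem result (β : ℝ) (hβ : 1 < β) (c u v : ℝ) (hu : 1 ≤ u) (huv : u < v) :
    ∃ α : ℝ, u < α ∧ α < v ∧ (∀ i j : ℤ, α ^ i = β ^ j → i = 0 ∧ j = 0) ∧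
      (∀ x : ℝ, {p : ℕ × ℕ | |α ^ p.1 - β ^ p.2| ≤ x}.Finite) ∧
      (∃ K : ℕ, ∀ k : ℕ, K ≤ k → ∀ n m : ℕ, tw k ≤ n →
        Real.exp (c * Real.sqrt (k : ℝ)) ≤ |α ^ n - β ^ m|) ∧
      ¬ Asymptotics.IsEquivalent Filter.atTop
        (fun x : ℝ => (({p : ℕ × ℕ | |α ^ p.1 - β ^ p.2| ≤ x}.ncard : ℕ) : ℝ))
        (fun x : ℝ => Real.log x ^ 2 / (Real.log α * Real.log β)) := by
  obtain ⟨α, h1, h2⟩ := sharp hβ c hu huv
  exact ⟨α, h1.1, h1.2, h2⟩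

end Pool.Agent.Lib.MP_606be1_nt.Retired.TowerSharp
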